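import Pool.Agent.Helper78.ME.Goals

/-!
# Packet MLS2 of the campaign ME: the state functions are computed in linear space
-/

set_option autoImplicit false
set_option linter.unusedSectionVars false
set_option exponentiation.threshold 10000

namespace Pool.Agent.Helper85.ME

open Pool.Agent.Helper65.LinSpace Pool.Agent.Helper78.Mpc Pool.Agent.Helper28.Ram
open Pool.Agent.Helper78.ME Finset

variable {α β : Type} [Ctx α] [Ctx β]

/-- A family of parameters in the class. -/
structure PF (m : α → Prm) (C : α → ℕ) : Prop where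
  eA : LS (fun z => (m z).eA)
  eN : LS (fun z => (m z).eN)
  eW : LS (fun z => (m z).eW)
  hΛ : LS (fun z => (m z).Λ)
  hβ : LS (fun z => (m z).β)
  hB : LS (fun z => (m z).B)
  x : LS (fun z => (m z).x)
  y : LS (fun z => (m z).y)
  S : LS (fun z => (m z).S)
  D : LS (fun z => (m z).D)
  k : LS (fun z => (m z).k)
  hC : LS C
  b1 : ∀ z, 0 < (m z).β
  b2 : ∀ z, (m z).β ^ (m z).Λ ≤ C z
  b3 : ∀ z, 2 ^ ((m z).S + 1) ≤ C z

namespace PF

variable {m : α → Prm} {C : α → ℕ}

theorem comp (h : PF m C) {π : β → α} (hπ : LS π) :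
    PF (fun b => m (π b)) (fun b => C (π b)) where
  eA := LS.comp (g := fun z => (m z).eA) h.eA hπ
  eN := LS.comp (g := fun z => (m z).eN) h.eN hπ
  eW := LS.comp (g := fun z => (m z).eW) h.eW hπ
  hΛ := LS.comp (g := fun z => (m z).Λ) h.hΛ hπ
  hβ := LS.comp (g := fun z => (m z).β) h.hβ hπ
  hB := LS.comp (g := fun z => (m z).B) h.hB hπ
  x := LS.comp (g := fun z => (m z).x) h.x hπ
  y := LS.comp (g := fun z => (m z).y) h.y hπ
  S := LS.comp (g := fun z => (m z).S) h.S hπ
  D := LS.comp (g := fun z => (m z).D) h.D hπ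
  k := LS.comp (g := fun z => (m z).k) h.k hπ
  hC := LS.comp (g := C) h.hC hπ
  b1 := fun z => h.b1 (π z)
  b2 := fun z => h.b2 (π z)
  b3 := fun z => h.b3 (π z)

variable (h : PF m C)
include h

theorem pS : LS (fun z => 2 ^ ((m z).S + 1)) :=
  LS.pow_of_le (f := fun _ => 2) (LS.const 2) (LS.add h.S (LS.const 1)) h.hC h.b3

variable {v c u : α → ℕ}

theorem wq (hv : LS v) : LS (fun z => (m z).wq (v z)) := LS.mod hv h.pS

theorem wl (hv : LS v) : LS (fun z => (m z).wl (v z)) := LS.mod (LS.div hv h.pS) h.pS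

theorem aj (hv : LS v) : LS (fun z => (m z).aj (v z)) := by
  have h1 := h.comp (π := fun p : α × ℕ => p.1) LS.fst
  have hv1 : LS (fun p : α × ℕ => v p.1) := LS.comp (g := v) hv LS.fst
  have hi : LS (fun p : α × ℕ => p.2) := LS.snd
  have h2 : LS (fun p : α × ℕ => eq01 (letN ((m p.1).wq (v p.1)) (2 * (m p.1).D + 1 + p.2)) 2) :=
    LS.eq01 (LS.letN (h1.wq hv1) (LS.add (LS.add (LS.mul (LS.const 2) h1.D) (LS.const 1)) hi))
      (LS.const 2)
  refine LS.sum_le (N := fun z => (m z).k - 1) (B := fun _ => 1)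
    (f := fun z i => eq01 (letN ((m z).wq (v z)) (2 * (m z).D + 1 + i)) 2)
    h2 (LS.sub h.k (LS.const 1)) (LS.const 1) ?_
  intro z i _
  unfold eq01
  split_ifs <;> omega

theorem fn {e : α → ℕ} (he : LS e) (hu : LS u) :
    LS (fun z => capN (m z).S (fnN (e z) (m z).S (m z).Λ (m z).β (m z).B (u z))) :=
  LS.capN h.S (LS.fnN he h.S h.hΛ h.hβ h.hB hu h.hC h.b1 h.b2 h.b3)

theorem adN (hv : LS v) : LS (fun z => (m z).adN (v z)) := h.fn h.eA (h.wq hv)

theorem adr (hv : LS v) : LS (fun z => (m z).adr (v z)) :=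
  LS.sub (h.adN hv) (LS.pow_log (h.adN hv))

omit h in
theorem lw (hu : LS u) : LS (fun z => Prm.lw (u z)) := by
  unfold Prm.lw
  fun_prop

theorem inpN (hv : LS v) (hc : LS c) : LS (fun z => (m z).inpN (v z) (c z)) :=
  LS.catN (LS.sdN (h.wq hv)) (LS.catN (lw (LS.letN h.x (h.adr hv)))
    (LS.catN (lw (LS.letN h.y (h.adr hv))) hc))

theorem nu (hv : LS v) (hc : LS c) : LS (fun z => (m z).nu (v z) (c z)) :=
  h.fn h.eN (h.inpN hv hc)

theorem nw (hv : LS v) (hc : LS c) : LS (fun z => (m z).nw (v z) (c z)) :=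
  h.fn h.eW (h.inpN hv hc)

end PF

theorem LS_CR {x : α → ℕ} (hx : LS x) : LS (fun a => CR (x a)) := by
  unfold CR
  exact (LS.add hx (LS.const 2)).pow_const 8000

theorem two_pow_le_CR {x t : ℕ} (h : t ≤ 100 * (Nat.log 2 x + 1)) : 2 ^ t ≤ CR x := by
  refine (Nat.pow_le_pow_right (by norm_num) h).trans ((two_pow_log_le x 100).trans ?_)
  unfold CR
  exact Nat.pow_le_pow_right (by omega) (by norm_num)

theorem pS_le (n S D k : ℕ) : Pool.Agent.Helper78.ME.pS n S D k ≤ n := by
  unfold Pool.Agent.Helper78.ME.pS ifz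
  split_ifs
  · exact Nat.zero_le _
  · exact min_le_right _ _

/-- The parameters form a family in the class. -/
theorem pf (h1 : MLS1_stmt) {eA eN eW st x y S D k : α → ℕ} (h : Inp eA eN eW st x y S D k) :
    PF (fun z => prm (eA z) (eN z) (eW z) (st z) (x z) (y z) (S z) (D z) (k z))
      (fun z => CR (x z)) := by
  obtain ⟨heA, heN, heW, hst, hx, hy, hS, hD, hk⟩ := h
  obtain ⟨-, g1, g2, g3, -, -, -, -⟩ := h1 hx hS hD hk
  have hn : LS (fun z => Nat.log 2 (x z)) := LS.log2 hx
  have hC : LS (fun z => CR (x z)) := LS_CR hx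
  exact
    { eA := heA
      eN := heN
      eW := heW
      hΛ := LS.LW hn
      hβ := LS.pow_of_le (f := fun _ => 2) (LS.const 2) (LS.mul (LS.const 2) (LS.ll hn)) hC
        fun z => by
          apply two_pow_le_CR
          have h1 := ll_le (Nat.log 2 (x z))
          omega
      hB := hC
      x := hx
      y := hy
      S := g1
      D := g2
      k := g3
      hC := hC
      b1 := fun z => by
        show 0 < 2 ^ (2 * ll (Nat.log 2 (x z)))
        positivity
      b2 := fun z => by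
        refine (beta_pow_le (x z)).trans ?_
        unfold CM CR
        exact Nat.pow_le_pow_right (by omega) (by norm_num)
      b3 := fun z => by
        apply two_pow_le_CR
        have h2 := pS_le (Nat.log 2 (x z)) (S z) (D z) (k z)
        show Pool.Agent.Helper78.ME.pS (Nat.log 2 (x z)) (S z) (D z) (k z) + 1 ≤ _
        omega }

/-- **Packet MLS2.** -/
theorem MLS2 (h1 : MLS1_stmt) : MLS2_stmt := by
  intro α _ eA eN eW st x y S D k h
  have hP := pf h1 h
  have hP1 := hP.comp (π := fun p : α × ℕ => p.1) LS.fst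
  have hP2 := hP.comp (π := fun p : α × ℕ × ℕ => p.1) LS.fst
  have hv2 : LS (fun p : α × ℕ × ℕ => p.2.1) := by fun_prop
  have hc2 : LS (fun p : α × ℕ × ℕ => p.2.2) := by fun_prop
  exact ⟨hP1.wq LS.snd, hP1.wl LS.snd, hP1.aj LS.snd, hP1.adN LS.snd, hP2.nu hv2 hc2,
    hP2.nw hv2 hc2⟩

end Pool.Agent.Helper85.ME
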